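import Mathlib

/-!
# The `n`-th prime is at least `n log n / 2` (helper6)
-/

set_option autoImplicit false

namespace Pool.Agent.L7h6.PR

open Finset Filter

/-- the `n`-th prime is at least `n log n / 2` -/
lemma nth_lower : ∀ᶠ n : ℕ in atTop, (n : ℝ) * Real.log n / 2 ≤ (Nat.nth Nat.Prime (n - 1) : ℕ) := by
  have h4 : Real.log 4 < 1.5 := by
    have : Real.log 4 = 2 * Real.log 2 := by
      rw [show (4 : ℝ) = 2 ^ 2 by norm_num, Real.log_pow]
      norm_num
    rw [this]
    have := Real.log_two_lt_d9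
    linarith
  have h := Chebyshev.eventually_primeCounting_le (ε := 1 / 2) (by norm_num)
  obtain ⟨x₀, hx₀⟩ := eventually_atTop.1 h
  obtain ⟨N₀, hN₀⟩ := exists_nat_ge x₀
  filter_upwards [eventually_ge_atTop (max N₀ 2)] with n hn
  have hn2 : 2 ≤ n := (le_max_right _ _).trans hn
  have hnN : N₀ ≤ n := (le_max_left _ _).trans hn
  obtain ⟨k, rfl⟩ : ∃ k, n = k + 1 := ⟨n - 1, by omega⟩
  rw [Nat.add_sub_cancel]
  have hge : k + 2 ≤ Nat.nth Nat.Prime k := Nat.add_two_le_nth_prime k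
  have hcount : (Nat.nth Nat.Prime k).primeCounting = k + 1 := by
    have h1 := Nat.primeCounting'_nth_eq k
    unfold Nat.primeCounting
    unfold Nat.primeCounting' at h1 ⊢
    rw [Nat.count_succ, if_pos (Nat.prime_nth_prime k)]
    exact congrArg (· + 1) h1
  have h5 := hx₀ (Nat.nth Nat.Prime k : ℕ) (hN₀.trans (by exact_mod_cast (show N₀ ≤ Nat.nth Nat.Prime k by omega)))
  rw [Nat.floor_natCast, hcount] at h5
  have hpr : ((k + 2 : ℕ) : ℝ) ≤ (Nat.nth Nat.Prime k : ℕ) := by exact_mod_cast hge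
  push_cast at hpr h5 ⊢
  have hk0 : (0 : ℝ) ≤ k := Nat.cast_nonneg k
  have hk1 : (1 : ℝ) ≤ k := by exact_mod_cast (show 1 ≤ k by omega)
  have hlogp : 0 < Real.log (Nat.nth Nat.Prime k : ℕ) := Real.log_pos (by linarith)
  rw [le_div_iff₀ hlogp] at h5
  have hlog : Real.log ((k : ℝ) + 1) ≤ Real.log (Nat.nth Nat.Prime k : ℕ) := Real.log_le_log (by linarith) (by linarith)
  have h6 : ((k : ℝ) + 1) * Real.log ((k : ℝ) + 1) ≤ (k + 1) * Real.log (Nat.nth Nat.Prime k : ℕ) :=
    mul_le_mul_of_nonneg_left hlog (by linarith)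
  nlinarith

/-- the `n`-th prime divided by `n` tends to infinity -/
lemma nth_tendsto : Tendsto (fun n : ℕ => ((Nat.nth Nat.Prime (n - 1) : ℕ) : ℝ) / n) atTop atTop := by
  have h1 : Tendsto (fun n : ℕ => Real.log n / 2) atTop atTop :=
    (Real.tendsto_log_atTop.comp tendsto_natCast_atTop_atTop).atTop_div_const two_pos
  refine tendsto_atTop_mono' _ ?_ h1
  filter_upwards [nth_lower, eventually_gt_atTop 0] with n hn h0
  have : (0 : ℝ) < n := by exact_mod_cast h0
  rw [le_div_iff₀ this]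
  linarith

end Pool.Agent.L7h6.PR
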