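import Pool.Agent.R490.GPh
import Pool.Agent.L7h6.PL.Cor

/-!
# Products of at most three primes in short intervals: positive density in windows (helper6)
-/

set_option autoImplicit false

namespace Pool.Agent.L7h6.PR

open Finset Filter Polynomial
open Pool.Agent.L7h6.PL (LowerWin)

/-- at least `K` integers `v` in `(m, m + h]` with at most three prime factors (with multiplicity), all at least
`v ^ (1 / 15)` -/
def Good (h : ℝ) (K : ℕ) (m : ℕ) : Prop :=
  ∃ S : Finset ℕ, S.card = K ∧ ∀ v ∈ S, m < v ∧ (v : ℝ) ≤ m + h ∧ 2 ≤ v ∧ v.primeFactorsList.length ≤ 3 ∧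
    ∀ q : ℕ, q.Prime → q ∣ v → (v : ℝ) ^ (1 / 15 : ℝ) ≤ q

lemma good_mono {h h' : ℝ} {K K' m : ℕ} (hh : h ≤ h') (hK : K' ≤ K) (hg : Good h K m) : Good h' K' m := by
  obtain ⟨S, h1, h2⟩ := hg
  obtain ⟨T, hT, hT'⟩ := Finset.exists_subset_card_eq (s := S) (n := K') (by omega)
  exact ⟨T, hT', fun v hv => ⟨(h2 v (hT hv)).1, (h2 v (hT hv)).2.1.trans (by linarith), (h2 v (hT hv)).2.2⟩⟩

open Classical in
/-- almost all integers of every window are good, for the length `l log X` -/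
lemma windows (K : ℕ) (ε : ℝ) (hε : 0 < ε) :
    ∃ l : ℝ, 0 < l ∧ ∃ X₀ : ℕ, ∀ X Y : ℕ, X₀ ≤ X → (X : ℝ) ^ (4 / 5 : ℝ) ≤ Y → Y ≤ X →
      (#{m ∈ Ioc X (X + Y) | ¬ Good (l * Real.log (4 * X)) K m} : ℝ) ≤ ε * Y := by
  have hinj : Pool.Agent.R490.GPh.Inj (Polynomial.X : ℤ[X]) := by
    intro i j _ _ hne h
    rw [eval_X, eval_X] at h
    exact hne (by exact_mod_cast h)
  obtain ⟨κ, Λ, hκ, hΛ, H⟩ := Pool.Agent.R490.GPh.mainPoly (Polynomial.X : ℤ[X]) (by rw [natDegree_X]; omega) hinj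
    (3 / 4) ε 3 (by norm_num) (by norm_num) (by norm_num) hε
  obtain ⟨l, hl⟩ : ∃ l : ℝ, l = max Λ (K / κ) := ⟨_, rfl⟩
  have hl1 : Λ ≤ l := hl ▸ le_max_left _ _
  have hl2 : (K : ℝ) ≤ κ * l := by
    have h1 : (K : ℝ) / κ ≤ l := hl ▸ le_max_right _ _
    rw [div_le_iff₀ hκ] at h1
    linarith
  have hl0 : 0 < l := lt_of_lt_of_le hΛ hl1
  obtain ⟨X₁, hX₁⟩ := eventually_atTop.1 (H l hl1)
  have hev : ∀ᶠ X : ℕ in atTop, l * Real.log (4 * X) + 1 ≤ X := by
    have h1 : (fun x : ℝ => l * Real.log (4 * x) + 1) =o[atTop] (fun x : ℝ => x) := by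
      have h2 : (fun x : ℝ => Real.log (4 * x)) =o[atTop] (fun x : ℝ => x) := by
        have h3 : (fun x : ℝ => Real.log (4 * x)) =ᶠ[atTop] (fun x : ℝ => Real.log 4 + Real.log x) := by
          filter_upwards [eventually_gt_atTop 0] with x hx
          rw [Real.log_mul (by norm_num) hx.ne']
        refine h3.trans_isLittleO ?_
        exact (Asymptotics.isLittleO_const_id_atTop _).add Real.isLittleO_log_id_atTop
      exact (h2.const_mul_left l).add (Asymptotics.isLittleO_const_id_atTop _)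
    have h4 := (h1.def (c := 1) one_pos)
    have h5 := tendsto_natCast_atTop_atTop (R := ℝ) |>.eventually (h4.and (eventually_gt_atTop 0))
    filter_upwards [h5] with X hX
    obtain ⟨h6, h7⟩ := hX
    rw [one_mul, Real.norm_eq_abs, Real.norm_eq_abs, abs_of_pos h7] at h6
    exact (le_abs_self _).trans h6
  have hev2 : ∀ᶠ X : ℕ in atTop, (4 * X : ℝ) ^ (3 / 4 : ℝ) ≤ (X : ℝ) ^ (4 / 5 : ℝ) := by
    have h1 : Tendsto (fun X : ℕ => (X : ℝ) ^ (1 / 20 : ℝ)) atTop atTop :=
      (tendsto_rpow_atTop (by norm_num)).comp tendsto_natCast_atTop_atTop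
    filter_upwards [h1.eventually_ge_atTop (4 ^ (3 / 4 : ℝ)), eventually_gt_atTop 0] with X hX hX0
    have hX0' : (0 : ℝ) < X := by exact_mod_cast hX0
    rw [Real.mul_rpow (by norm_num) hX0'.le]
    have h2 : (X : ℝ) ^ (4 / 5 : ℝ) = (X : ℝ) ^ (1 / 20 : ℝ) * (X : ℝ) ^ (3 / 4 : ℝ) := by
      rw [← Real.rpow_add hX0']
      norm_num
    rw [h2]
    exact mul_le_mul_of_nonneg_right hX (by positivity)
  obtain ⟨X₂, hX₂⟩ := eventually_atTop.1 (hev.and hev2)
  refine ⟨l, hl0, max (max X₁ X₂) 1, fun X Y hX hY hYX => ?_⟩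
  have hX1 : X₁ ≤ X := ((le_max_left _ _).trans (le_max_left _ _)).trans hX
  have hX2 : X₂ ≤ X := ((le_max_right _ _).trans (le_max_left _ _)).trans hX
  have hX3 : 1 ≤ X := (le_max_right _ _).trans hX
  obtain ⟨e1, e2⟩ := hX₂ X hX2
  have hXr : (1 : ℝ) ≤ X := by exact_mod_cast hX3
  have hmain := hX₁ (4 * X) (by omega) X Y (by
    push_cast
    exact e2.trans hY) (by omega)
  refine le_trans ?_ hmain
  norm_cast
  apply Finset.card_le_card
  intro m hm
  rw [Finset.mem_filter] at hm ⊢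
  obtain ⟨hm1, hm2⟩ := hm
  refine ⟨hm1, ?_, ?_⟩
  · intro p hp
    by_cases h1 : (p : ℤ) ∣ (m : ℤ) + (Polynomial.X : ℤ[X]).eval ((0 : ℕ) : ℤ)
    · refine ⟨1, fun h2 => ?_⟩
      rw [eval_X] at h1 h2
      have h3 := dvd_sub h2 h1
      push_cast at h3
      have h4 : (m : ℤ) + 1 - (m + 0) = 1 := by ring
      rw [h4] at h3
      exact hp.one_lt.ne' (by exact_mod_cast (Int.natCast_dvd_natCast.1 (by exact_mod_cast h3) |> Nat.dvd_one.1))
    · exact ⟨0, h1⟩
  · by_contra hcon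
    push Not at hcon
    apply hm2
    rw [Finset.mem_Ioc] at hm1
    unfold Pool.Agent.R490.LGb.cnt at hcon
    have hcard : K ≤ #((Finset.Icc 1 ⌊l * Real.log ((4 * X : ℕ) : ℝ)⌋₊).filter (fun j => 2 ≤ (((fun _ => 1) j : ℕ) : ℤ) * m +
        (fun j : ℕ => (Polynomial.X : ℤ[X]).eval (j : ℤ)) j ∧
        ((((fun _ => 1) j : ℕ) : ℤ) * m + (fun j : ℕ => (Polynomial.X : ℤ[X]).eval (j : ℤ)) j).toNat.primeFactorsList.length ≤ 3 ∧
        ∀ p : ℕ, p.Prime → (p : ℤ) ∣ (((fun _ => 1) j : ℕ) : ℤ) * m + (fun j : ℕ => (Polynomial.X : ℤ[X]).eval (j : ℤ)) j →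
          (((4 * X : ℕ) : ℝ) ^ ((3 / 4 : ℝ) / 10)) ≤ p)) := by
      have h1 := hl2.trans hcon
      exact_mod_cast h1
    obtain ⟨T, hT, hT'⟩ := Finset.exists_subset_card_eq hcard
    refine ⟨T.image (fun j => m + j), ?_, ?_⟩
    · rw [Finset.card_image_of_injective _ (fun a b h => Nat.add_left_cancel h), hT']
    · intro v hv
      obtain ⟨j, hj, rfl⟩ := Finset.mem_image.1 hv
      have h1 := hT hj
      rw [Finset.mem_filter, Finset.mem_Icc] at h1
      obtain ⟨⟨h2, h3⟩, h4, h5, h6⟩ := h1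
      have e : (((fun _ => 1) j : ℕ) : ℤ) * m + (fun j : ℕ => (Polynomial.X : ℤ[X]).eval (j : ℤ)) j = ((m + j : ℕ) : ℤ) := by
        simp only [eval_X]
        push_cast
        ring
      rw [e] at h4 h5
      rw [Int.toNat_natCast] at h5
      have hj : (j : ℝ) ≤ l * Real.log (4 * X) := by
        have := (Nat.le_floor_iff (by
          apply mul_nonneg hl0.le
          apply Real.log_nonneg
          push_cast
          linarith)).1 h3
        push_cast at this
        exact this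
      have hmj : ((m + j : ℕ) : ℝ) ≤ 4 * X := by
        push_cast
        have h7 : (m : ℝ) ≤ X + Y := by exact_mod_cast hm1.2
        have h8 : (Y : ℝ) ≤ X := by exact_mod_cast hYX
        linarith
      refine ⟨by omega, by push_cast; linarith, by exact_mod_cast h4, h5, fun q hq hqv => ?_⟩
      have h7 := h6 q hq (by rw [e]; exact_mod_cast hqv)
      refine le_trans ?_ h7
      calc ((m + j : ℕ) : ℝ) ^ (1 / 15 : ℝ) ≤ (4 * X : ℝ) ^ (1 / 15 : ℝ) :=
            Real.rpow_le_rpow (by positivity) hmj (by norm_num)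
        _ ≤ (4 * X : ℝ) ^ ((3 / 4 : ℝ) / 10) := Real.rpow_le_rpow_of_exponent_le (by linarith) (by norm_num)
        _ = _ := by push_cast; rfl

/-- the good integers have lower density one in the windows at the size `α ^ (e n)`, for intervals of length
`h n` with `h n / e n → ∞` -/
theorem lowerWin (K : ℕ) (e h : ℕ → ℝ) (he : Tendsto e atTop atTop) (hh : Tendsto (fun n => h n / e n) atTop atTop)
    (ε : ℝ) (hε : 0 < ε) : LowerWin (fun n => {m | Good (h n) K m}) e (4 / 5) (1 - ε) := by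
  classical
  obtain ⟨l, hl, X₀, H⟩ := windows K ε hε
  intro A B hA hAB
  have hB : 1 < B := hA.trans hAB
  have h1 : Tendsto (fun n => A ^ e n) atTop atTop := (tendsto_rpow_atTop_of_base_gt_one A hA).comp he
  have hlB : 0 < Real.log B := Real.log_pos hB
  obtain ⟨n₀, hn₀⟩ := eventually_atTop.1 ((h1.eventually_ge_atTop (X₀ : ℝ)).and
    ((he.eventually_ge_atTop (Real.log 4 / Real.log B + 1)).and (hh.eventually_ge_atTop (l * (2 * Real.log B)))))
  refine ⟨n₀, fun n hn X Y hX1 hX2 hY1 hY2 => ?_⟩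
  obtain ⟨g1, g2, g3⟩ := hn₀ n hn
  have hen : 0 < e n := by
    have : 0 ≤ Real.log 4 / Real.log B := div_nonneg (Real.log_nonneg (by norm_num)) hlB.le
    linarith
  have hX0 : X₀ ≤ X := by exact_mod_cast g1.trans hX1
  have hXpos : (0 : ℝ) < X := lt_of_lt_of_le (Real.rpow_pos_of_pos (by linarith) _) hX1
  have h2 := H X Y hX0 hY1 hY2
  have h3 : l * Real.log (4 * X) ≤ h n := by
    have h4 : Real.log (4 * X) ≤ 2 * Real.log B * e n := by
      rw [Real.log_mul (by norm_num) hXpos.ne']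
      have h5 := Real.log_le_log hXpos hX2
      rw [Real.log_rpow (by linarith)] at h5
      have h6 : Real.log 4 ≤ e n * Real.log B := by
        have : Real.log 4 / Real.log B ≤ e n := by linarith
        rwa [div_le_iff₀ hlB] at this
      linarith
    rw [le_div_iff₀ hen] at g3
    calc l * Real.log (4 * X) ≤ l * (2 * Real.log B * e n) := mul_le_mul_of_nonneg_left h4 hl.le
      _ = l * (2 * Real.log B) * e n := by ring
      _ ≤ h n := g3
  have h4 : {m : ℕ | X < m ∧ m ≤ X + Y ∧ m ∈ {m | Good (h n) K m}} =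
      ↑((Ioc X (X + Y)).filter (fun m => Good (h n) K m)) := by
    ext m
    simp only [coe_filter, Finset.mem_Ioc, Set.mem_ofPred_eq]
    tauto
  rw [h4, Set.ncard_coe_finset]
  have h5 := Finset.card_filter_add_card_filter_not (s := Ioc X (X + Y)) (fun m => Good (h n) K m)
  rw [Nat.card_Ioc] at h5
  have h6 : #{m ∈ Ioc X (X + Y) | ¬ Good (h n) K m} ≤ #{m ∈ Ioc X (X + Y) | ¬ Good (l * Real.log (4 * X)) K m} := by
    apply Finset.card_le_card
    intro m hm
    rw [Finset.mem_filter] at hm ⊢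
    exact ⟨hm.1, fun hg => hm.2 (good_mono h3 le_rfl hg)⟩
  have h7 : (#{m ∈ Ioc X (X + Y) | Good (h n) K m} : ℝ) + #{m ∈ Ioc X (X + Y) | ¬ Good (h n) K m} = Y := by
    have : X + Y - X = Y := by omega
    rw [this] at h5
    exact_mod_cast h5
  have h8 : (#{m ∈ Ioc X (X + Y) | ¬ Good (h n) K m} : ℝ) ≤ #{m ∈ Ioc X (X + Y) | ¬ Good (l * Real.log (4 * X)) K m} := by
    exact_mod_cast h6
  linarith

end Pool.Agent.L7h6.PR
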